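import Pool.Agent.Helper94.UP.Sheet

/-! # Row GL: gluing -/

set_option autoImplicit false

open scoped ZeroAtInfty ContDiff NNReal
open Set Filter Topology MeasureTheory

namespace Pool.Agent.Helper94.UP

theorem gl12_geo (N : ℕ) : ∑ n ∈ Finset.range N, ((1 : ℝ) / 2) ^ (n + 1) = 1 - (1 / 2) ^ N := by
  induction N with
  | zero => simp
  | succ n ih =>
    rw [Finset.sum_range_succ, ih, pow_succ]
    ring

theorem gl12_psi0 {X : Type*} (b : ℕ → X → ℝ) (n : ℕ) (x : X) (h : b n x = 0) :
    psi b n x = 0 := by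
  unfold psi
  rw [h, zero_mul]

theorem stGL.{u} (h1 : ST_PU.{u}) (h2 : ST_LG.{u}) (h3 : ST_GA.{u}) : ST_GL.{u} := by
  intro k X _ _ q M hM hq1 hq2 g b B c r h e L1 κ ε hL1 hκ hε hbC hb01 hB hbL hr hb1 hb0 hcov
    hhC hhL hhg he heε hsum
  obtain ⟨p1, p2, p3, p4⟩ := h1 (k := k) b B hbC hb01 hB hbL
  have hone : ∀ x N, b N x = 1 → ∑ n ∈ Finset.range (N + 1), psi b n x = 1 := by
    intro x N hN
    rw [p3, (h3 b h x N hN).2, sub_zero]
  have hK : ∀ x N, b N x = 1 → Kg b h x = ∑ n ∈ Finset.range (N + 1), psi b n x * h n x :=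
    fun x N hN => (h3 b h x N hN).1
  refine ⟨?_, ?_, ?_⟩
  · rw [contDiff_iff_contDiffAt]
    intro z
    obtain ⟨N, hN⟩ := hcov z
    have hc : ContDiff ℝ k (fun x => ∑ n ∈ Finset.range (N + 1), psi b n x * h n x) :=
      ContDiff.sum (fun n _ => (p1 n).mul (hhC n))
    refine hc.contDiffAt.congr_of_eventuallyEq ?_
    have hop : ∀ᶠ x in 𝓝 z, ‖x - c N‖ < r N / 2 := by
      have hcont : Continuous (fun x : X => ‖x - c N‖) := by fun_prop
      exact hcont.continuousAt.eventually_lt continuousAt_const hN
    filter_upwards [hop] with x hx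
    exact hK x N (hb1 N x hx.le)
  · apply h2 q _ (L1 + κ) (by linarith)
    intro z
    obtain ⟨N, hN⟩ := hcov z
    obtain ⟨ρ, hρ0, hρN, hρ⟩ : ∃ ρ : ℝ, 0 < ρ ∧ ρ < r N / 2 - ‖z - c N‖ ∧
        ∀ n ∈ Finset.range (N + 1), ρ < r n / 8 := by
      have e1 : ∀ᶠ ρ in 𝓝[>] (0 : ℝ), ρ < r N / 2 - ‖z - c N‖ :=
        (eventually_lt_nhds (by linarith)).filter_mono nhdsWithin_le_nhds
      have e2 : ∀ᶠ ρ in 𝓝[>] (0 : ℝ), ∀ n ∈ Finset.range (N + 1), ρ < r n / 8 := by
        rw [Filter.eventually_all_finset]
        intro n _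
        exact (eventually_lt_nhds (by have := hr n; linarith)).filter_mono nhdsWithin_le_nhds
      obtain ⟨ρ, g0, g1, g2⟩ := (eventually_mem_nhdsWithin.and (e1.and e2)).exists
      exact ⟨ρ, g0, g1, g2⟩
    refine ⟨ρ, hρ0, ?_⟩
    intro x y hx hy
    have tri : ∀ w v : X, ‖w - v‖ ≤ ‖w - z‖ + ‖z - v‖ := by
      intro w v
      have : w - v = (w - z) + (z - v) := by abel
      rw [this]
      exact norm_add_le _ _
    have tri' : ∀ w v : X, ‖z - v‖ ≤ ‖w - z‖ + ‖w - v‖ := by
      intro w v
      have : z - v = -(w - z) + (w - v) := by abel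
      rw [this]
      refine (norm_add_le _ _).trans ?_
      rw [norm_neg]
    have key : ∀ w, ‖w - z‖ < ρ → b N w = 1 := by
      intro w hw
      apply hb1
      have := tri w (c N)
      linarith
    have hxN := key x hx
    have hyN := key y hy
    rw [hK x N hxN, hK y N hyN]
    have hx1 := hone x N hxN
    have hy1 := hone y N hyN
    have e0 : ∑ n ∈ Finset.range (N + 1), psi b n x * h n x -
        ∑ n ∈ Finset.range (N + 1), psi b n y * h n y =
        ∑ n ∈ Finset.range (N + 1), (psi b n x * (h n x - h n y) +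
          (psi b n x - psi b n y) * (h n y - g y)) := by
      have e1 : ∑ n ∈ Finset.range (N + 1), (psi b n x - psi b n y) * g y = 0 := by
        rw [← Finset.sum_mul, Finset.sum_sub_distrib, hx1, hy1, sub_self, zero_mul]
      rw [← Finset.sum_sub_distrib, ← add_zero (∑ n ∈ Finset.range (N + 1),
        (psi b n x * (h n x - h n y) + (psi b n x - psi b n y) * (h n y - g y))), ← e1,
        ← Finset.sum_add_distrib]
      apply Finset.sum_congr rfl
      intro n _
      ring
    rw [e0]
    have hqn : 0 ≤ q (x - y) := apply_nonneg q _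
    have term : ∀ n ∈ Finset.range (N + 1), |psi b n x * (h n x - h n y) +
        (psi b n x - psi b n y) * (h n y - g y)| ≤
        psi b n x * (L1 * q (x - y)) + κ * (1 / 2) ^ (n + 1) * q (x - y) := by
      intro n hn
      refine (abs_add_le _ _).trans (add_le_add ?_ ?_)
      · rw [abs_mul, abs_of_nonneg (p2 n x)]
        exact mul_le_mul_of_nonneg_left (hhL n x y) (p2 n x)
      · have hρn := hρ n hn
        have hrn := hr n
        by_cases hz : ‖z - c n‖ ≤ 7 / 8 * r n
        · have hy' : ‖y - c n‖ ≤ r n := by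
            have := tri y (c n)
            linarith
          rw [abs_mul]
          have a1 : |h n y - g y| ≤ e n := hhg n y hy'
          have a2 : |psi b n x - psi b n y| ≤
              (∑ m ∈ Finset.range (n + 1), B m) * (M * q (x - y)) :=
            (p4 n x y).trans (mul_le_mul_of_nonneg_left (hq2 _)
              (Finset.sum_nonneg fun m _ => hB m))
          have a3 : 0 ≤ (∑ m ∈ Finset.range (n + 1), B m) * (M * q (x - y)) :=
            mul_nonneg (Finset.sum_nonneg fun m _ => hB m) (mul_nonneg hM.le hqn)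
          calc |psi b n x - psi b n y| * |h n y - g y| ≤
              ((∑ m ∈ Finset.range (n + 1), B m) * (M * q (x - y))) * e n :=
                mul_le_mul a2 a1 (abs_nonneg _) a3
            _ = (e n * (∑ m ∈ Finset.range (n + 1), B m) * M) * q (x - y) := by ring
            _ ≤ κ * (1 / 2) ^ (n + 1) * q (x - y) :=
                mul_le_mul_of_nonneg_right (hsum n) hqn
        · rw [not_le] at hz
          have z0 : ∀ w, ‖w - z‖ < ρ → psi b n w = 0 := by
            intro w hw
            apply gl12_psi0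
            apply hb0
            have := tri' w (c n)
            linarith
          rw [z0 x hx, z0 y hy, sub_self, zero_mul, abs_zero]
          positivity
    refine (Finset.abs_sum_le_sum_abs _ _).trans ((Finset.sum_le_sum term).trans ?_)
    rw [Finset.sum_add_distrib, ← Finset.sum_mul, hx1, one_mul, ← Finset.sum_mul,
      ← Finset.mul_sum, gl12_geo]
    have hp : (0 : ℝ) ≤ (1 / 2) ^ (N + 1) := by positivity
    have : κ * (1 - (1 / 2) ^ (N + 1)) * q (x - y) ≤ κ * q (x - y) := by
      apply mul_le_mul_of_nonneg_right _ hqn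
      nlinarith
    nlinarith
  · intro x
    obtain ⟨N, hN⟩ := hcov x
    have hxN := hb1 N x hN.le
    have hx1 := hone x N hxN
    rw [hK x N hxN]
    have e0 : ∑ n ∈ Finset.range (N + 1), psi b n x * h n x - g x =
        ∑ n ∈ Finset.range (N + 1), psi b n x * (h n x - g x) := by
      have : ∑ n ∈ Finset.range (N + 1), psi b n x * (h n x - g x) =
          ∑ n ∈ Finset.range (N + 1), (psi b n x * h n x - psi b n x * g x) := by
        apply Finset.sum_congr rfl
        intro n _
        ring
      rw [this, Finset.sum_sub_distrib, ← Finset.sum_mul, hx1, one_mul]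
    rw [e0]
    have term : ∀ n ∈ Finset.range (N + 1), |psi b n x * (h n x - g x)| ≤ psi b n x * ε := by
      intro n _
      rw [abs_mul, abs_of_nonneg (p2 n x)]
      by_cases hz : ‖x - c n‖ ≤ r n
      · exact mul_le_mul_of_nonneg_left ((hhg n x hz).trans (heε n)) (p2 n x)
      · have hrn := hr n
        have : psi b n x = 0 := gl12_psi0 b n x (hb0 n x (by rw [not_le] at hz; linarith))
        rw [this, zero_mul, zero_mul]
    refine (Finset.abs_sum_le_sum_abs _ _).trans ((Finset.sum_le_sum term).trans ?_)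
    rw [← Finset.sum_mul, hx1, one_mul]

end Pool.Agent.Helper94.UP
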